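import Pool.Agent.TH437.SP.Classif

/-!
# Spanning rainbow spiders in properly edge-coloured complete graphs

Determination of all good pairs `(n, t)` with `t ≤ (1/2 - ε) n` and `n` large: all of them are good
except `t = 1` with `n` even, and `t = 2` with `n` a power of two. For `t ≥ 3` every vertex is the
centre of a spanning rainbow `t`-spider.
-/

set_option autoImplicit false

namespace Pool.Agent.Results.MP_4fbaa5_co.GoodPairs

open Pool.Agent.TH437.SP

theorem result (ε : ℝ) (hε : 0 < ε) :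
    ∃ n₀ : ℕ, ∀ n : ℕ, n₀ ≤ n → ∀ t : ℕ, (t : ℝ) ≤ (1 / 2 - ε) * (n : ℝ) →
      (Good n t ↔ ¬ (t = 1 ∧ Even n) ∧ ¬ (t = 2 ∧ ∃ k, n = 2 ^ k)) ∧
      (3 ≤ t → ∀ (K : Type) (C : Sym2 (Fin n) → K), ProperColouring C → ∀ v : Fin n,
        ∃ T : SimpleGraph (Fin n), IsSpider T v t ∧ Rainbow C T) :=
  good_iff hε

end Pool.Agent.Results.MP_4fbaa5_co.GoodPairs
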